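import Pool.Agent.Helper79.HC.Defs

/-!
# HC-4: fluxes and lengths of quadratic Bezier curves
-/

namespace Pool.Agent.Helper79.HC

open MeasureTheory Set

theorem abs_cr_le (a b : ℂ) : |cr a b| ≤ ‖a‖ * ‖b‖ := by
  have h : cr a b = (starRingEnd ℂ a * b).im := by
    simp only [cr, Complex.mul_im, Complex.conj_re, Complex.conj_im]
    ring
  rw [h]
  refine (Complex.abs_im_le_norm _).trans ?_
  rw [norm_mul, RCLike.norm_conj]

theorem continuous_bez (a m b : ℂ) : Continuous (bez a m b) := by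
  unfold bez
  fun_prop

theorem continuous_dbez (a m b : ℂ) : Continuous (dbez a m b) := by
  unfold dbez
  fun_prop

theorem fl_le_len {φ : ℂ → ℂ} (hφ : Continuous φ) (hb : ∀ z, ‖φ z‖ ≤ 1) (a m b : ℂ) :
    |fl φ a m b| ≤ len a m b := by
  unfold fl len
  refine (intervalIntegral.abs_integral_le_integral_abs zero_le_one).trans ?_
  have h1 := continuous_bez a m b
  have h2 := continuous_dbez a m b
  have h3 : Continuous fun t => |cr (φ (bez a m b t)) (dbez a m b t)| := by
    unfold cr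
    fun_prop
  refine intervalIntegral.integral_mono_on zero_le_one (h3.intervalIntegrable _ _)
    (h2.norm.intervalIntegrable _ _) fun t _ => ?_
  refine (abs_cr_le _ _).trans ?_
  exact mul_le_of_le_one_left (norm_nonneg _) (hb _)

theorem bez_symm (a m b : ℂ) (t : ℝ) : bez b m a t = bez a m b (1 - t) := by
  unfold bez
  simp only [Complex.real_smul]
  push_cast
  ring

theorem dbez_symm (a m b : ℂ) (t : ℝ) : dbez b m a t = - dbez a m b (1 - t) := by
  unfold dbez
  simp only [Complex.real_smul]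
  push_cast
  ring

theorem fl_symm (φ : ℂ → ℂ) (a m b : ℂ) : fl φ b m a = - fl φ a m b := by
  unfold fl
  rw [← intervalIntegral.integral_neg]
  have h := intervalIntegral.integral_comp_sub_left (a := 0) (b := 1)
    (fun t => -cr (φ (bez a m b t)) (dbez a m b t)) (1 : ℝ)
  simp only [sub_self, sub_zero] at h
  rw [← h]
  congr 1
  funext t
  rw [bez_symm, dbez_symm]
  unfold cr
  simp
  ring

theorem dbez_const (a : ℂ) (t : ℝ) : dbez a a a t = 0 := by
  simp [dbez]

theorem fl_const (φ : ℂ → ℂ) (a : ℂ) : fl φ a a a = 0 := by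
  unfold fl
  simp [dbez_const, cr]

theorem len_nonneg (a m b : ℂ) : 0 ≤ len a m b :=
  intervalIntegral.integral_nonneg zero_le_one fun _ _ => norm_nonneg _

theorem len_const (a : ℂ) : len a a a = 0 := by
  unfold len
  simp [dbez_const]

theorem len_symm (a m b : ℂ) : len b m a = len a m b := by
  unfold len
  have h := intervalIntegral.integral_comp_sub_left (a := 0) (b := 1)
    (fun t => ‖dbez a m b t‖) (1 : ℝ)
  simp only [sub_self, sub_zero] at h
  rw [← h]
  congr 1
  funext t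
  rw [dbez_symm, norm_neg]

theorem len_mid (a b : ℂ) : len a (mid a b) b = ‖b - a‖ := by
  unfold len
  have h : ∀ t : ℝ, dbez a (mid a b) b t = b - a := by
    intro t
    unfold dbez mid
    simp only [Complex.real_smul]
    push_cast
    ring
  simp only [h]
  simp

theorem len_add (z a m b : ℂ) : len (z + a) (z + m) (z + b) = len a m b := by
  unfold len
  congr 1
  funext t
  congr 1
  unfold dbez
  simp only [Complex.real_smul]
  ring

theorem len_mul {z : ℂ} (hz : ‖z‖ = 1) (a m b : ℂ) : len (z * a) (z * m) (z * b) = len a m b := by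
  unfold len
  congr 1
  funext t
  have h : dbez (z * a) (z * m) (z * b) t = z * dbez a m b t := by
    unfold dbez
    simp only [Complex.real_smul]
    ring
  rw [h, norm_mul, hz, one_mul]

theorem sqrt_one_add_le {x : ℝ} (hx : 0 ≤ x) :
    Real.sqrt (1 + x) ≤ 1 + x / 2 - x ^ 2 / 8 + x ^ 3 / 16 := by
  have h1 : 0 ≤ 1 + x / 2 - x ^ 2 / 8 + x ^ 3 / 16 := by
    nlinarith [mul_nonneg hx (sq_nonneg (x - 1)), mul_nonneg hx (sq_nonneg x)]
  rw [Real.sqrt_le_left h1]
  nlinarith [pow_nonneg hx 3, pow_nonneg hx 4, pow_nonneg hx 5, pow_nonneg hx 6,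
    mul_nonneg (pow_nonneg hx 4) (sq_nonneg (x - 2)), mul_nonneg (pow_nonneg hx 4) (sq_nonneg (x - 4))]

/-- upper bound for the length of a symmetric parabolic arc with chord `L` -/
theorem len_le {a m b : ℂ} (h : (b - a).re * (a + b - 2 * m).re +
    (b - a).im * (a + b - 2 * m).im = 0) {L n : ℝ} (hL : 0 < L) (h1 : ‖b - a‖ = L)
    (h2 : ‖a + b - 2 * m‖ = n) :
    len a m b ≤ L + n ^ 2 / (6 * L) - n ^ 4 / (40 * L ^ 3) + n ^ 6 / (112 * L ^ 5) := by
  have hn : ∀ t : ℝ, ‖dbez a m b t‖ = L * Real.sqrt (1 + (n / L) ^ 2 * (2 * t - 1) ^ 2) := by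
    intro t
    have e1 : dbez a m b t = (b - a) + ((2 * t - 1 : ℝ) : ℂ) * (a + b - 2 * m) := by
      unfold dbez
      simp only [Complex.real_smul]
      push_cast
      ring
    have e2 : ‖dbez a m b t‖ ^ 2 = L ^ 2 + (2 * t - 1) ^ 2 * n ^ 2 := by
      rw [e1, ← h1, ← h2, Complex.sq_norm, Complex.sq_norm, Complex.sq_norm,
        Complex.normSq_apply, Complex.normSq_apply, Complex.normSq_apply]
      simp only [Complex.add_re, Complex.add_im, Complex.re_ofReal_mul, Complex.im_ofReal_mul]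
      linear_combination 2 * (2 * t - 1) * h
    have e3 : L * Real.sqrt (1 + (n / L) ^ 2 * (2 * t - 1) ^ 2) =
        Real.sqrt (L ^ 2 + (2 * t - 1) ^ 2 * n ^ 2) := by
      rw [← Real.sqrt_sq hL.le, ← Real.sqrt_mul (sq_nonneg _)]
      rw [Real.sqrt_sq hL.le]
      congr 1
      field_simp
    rw [e3, ← e2, Real.sqrt_sq (norm_nonneg _)]
  unfold len
  set q : ℝ := (n / L) ^ 2 with hq
  have hq0 : 0 ≤ q := sq_nonneg _
  have hle : ∫ t in (0 : ℝ)..1, ‖dbez a m b t‖ ≤ ∫ t in (0 : ℝ)..1,
      L * (1 + q * (2 * t - 1) ^ 2 / 2 - (q * (2 * t - 1) ^ 2) ^ 2 / 8 +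
        (q * (2 * t - 1) ^ 2) ^ 3 / 16) := by
    refine intervalIntegral.integral_mono_on zero_le_one
      ((continuous_dbez a m b).norm.intervalIntegrable _ _)
      (Continuous.intervalIntegrable (by fun_prop) _ _) fun t _ => ?_
    rw [hn t]
    exact mul_le_mul_of_nonneg_left (sqrt_one_add_le (mul_nonneg hq0 (sq_nonneg _))) hL.le
  refine hle.trans (le_of_eq ?_)
  have hF : ∀ t : ℝ, HasDerivAt (fun t : ℝ => L * (t + q * (2 * t - 1) ^ 3 / 12 -
      q ^ 2 * (2 * t - 1) ^ 5 / 80 + q ^ 3 * (2 * t - 1) ^ 7 / 224))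
      (L * (1 + q * (2 * t - 1) ^ 2 / 2 - (q * (2 * t - 1) ^ 2) ^ 2 / 8 +
        (q * (2 * t - 1) ^ 2) ^ 3 / 16)) t := by
    intro t
    have hu : HasDerivAt (fun t : ℝ => 2 * t - 1) 2 t := by
      simpa using ((hasDerivAt_id t).const_mul 2).sub_const 1
    have h3 := (hu.pow 3).const_mul q |>.div_const 12
    have h5 := (hu.pow 5).const_mul (q ^ 2) |>.div_const 80
    have h7 := (hu.pow 7).const_mul (q ^ 3) |>.div_const 224
    have := ((((hasDerivAt_id t).add h3).sub h5).add h7).const_mul L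
    refine this.congr_deriv ?_
    ring
  rw [intervalIntegral.integral_eq_sub_of_hasDerivAt (fun t _ => hF t)
    (Continuous.intervalIntegrable (by fun_prop) _ _)]
  rw [hq]
  field_simp
  ring

end Pool.Agent.Helper79.HC
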