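import Pool.Agent.Helper42.HC.Len

/-!
# HC-9: matches and lengths of the prototypes
-/

set_option linter.style.show false

namespace Pool.Agent.Helper79.HC

open MeasureTheory Set

private theorem pt_inj' {x y x' y' : ℝ} : pt x y = pt x' y' ↔ x = x' ∧ y = y' := by
  have h3 : (0 : ℝ) < Real.sqrt 3 := by positivity
  constructor
  · intro h
    have h1 := congrArg Complex.re h
    have h2 := congrArg Complex.im h
    simp only [pt] at h1 h2
    constructor
    · have : Real.sqrt 3 / 2 * (x - x') = 0 := by linarith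
      rcases mul_eq_zero.1 this with h | h
      · linarith
      · linarith
    · linarith
  · rintro ⟨rfl, rfl⟩; rfl

private theorem pt_add (x y x' y' : ℝ) : pt x y + pt x' y' = pt (x + x') (y + y') := by
  apply Complex.ext <;> simp [pt] <;> ring

private theorem pt_sub (x y x' y' : ℝ) : pt x y - pt x' y' = pt (x - x') (y - y') := by
  apply Complex.ext <;> simp [pt] <;> ring

private theorem pt_norm_sq (x y : ℝ) : ‖pt x y‖ ^ 2 = (3 * x ^ 2 + y ^ 2) / 4 := by
  rw [Complex.sq_norm, Complex.normSq_apply]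
  have h3 : Real.sqrt 3 * Real.sqrt 3 = 3 := Real.mul_self_sqrt (by norm_num)
  simp only [pt]
  linear_combination (x ^ 2 / 4) * h3

private theorem pt_norm_le {x y r : ℝ} (hr : 0 ≤ r) (h : (3 * x ^ 2 + y ^ 2) / 4 ≤ r ^ 2) :
    ‖pt x y‖ ≤ r := by
  rw [← pt_norm_sq] at h
  exact (sq_le_sq₀ (norm_nonneg _) hr).1 h

private theorem pt_norm_eq {x y r : ℝ} (hr : 0 ≤ r) (h : (3 * x ^ 2 + y ^ 2) / 4 = r ^ 2) :
    ‖pt x y‖ = r := by
  rw [← pt_norm_sq] at h
  exact (sq_eq_sq₀ (norm_nonneg _) hr).1 h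

private theorem pos_dl0 : pos (dl 0) = pt 2 0 := by simp [pos, dl]

private theorem pos_dl1 : pos (dl 1) = pt 1 3 := by simp [pos, dl]

private theorem pos_dl2 : pos (dl 2) = pt (-1) 3 := by simp [pos, dl]; norm_num

private theorem pos_dl3 : pos (dl 3) = pt (-2) 0 := by simp [pos, dl]

private theorem pos_dl4 : pos (dl 4) = pt (-1) (-3) := by simp [pos, dl]

private theorem pos_dl5 : pos (dl 5) = pt 1 (-3) := by simp [pos, dl]; norm_num

theorem match55 (k : Fin 6) : Match (proto 5) (proto 5) k := by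
  fin_cases k
  · show Match (proto 5) (proto 5) 0
    exact ⟨rfl, rfl,
      by
        show pt 1 (-1) ≠ pt 1 1
        rw [ne_eq, pt_inj']; norm_num,
      by
        rw [pos_dl0]
        show pt 1 (-1) = pt 2 0 + pt (-1) (-1)
        rw [pt_add, pt_inj']; norm_num,
      by
        rw [pos_dl0]
        show pt 1 1 = pt 2 0 + pt (-1) 1
        rw [pt_add, pt_inj']; norm_num⟩
  · show Match (proto 5) (proto 5) 1
    exact ⟨rfl, rfl,
      by
        show pt 1 1 ≠ pt 0 2
        rw [ne_eq, pt_inj']; norm_num,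
      by
        rw [pos_dl1]
        show pt 1 1 = pt 1 3 + pt 0 (-2)
        rw [pt_add, pt_inj']; norm_num,
      by
        rw [pos_dl1]
        show pt 0 2 = pt 1 3 + pt (-1) (-1)
        rw [pt_add, pt_inj']; norm_num⟩
  · show Match (proto 5) (proto 5) 2
    exact ⟨rfl, rfl,
      by
        show pt 0 2 ≠ pt (-1) 1
        rw [ne_eq, pt_inj']; norm_num,
      by
        rw [pos_dl2]
        show pt 0 2 = pt (-1) 3 + pt 1 (-1)
        rw [pt_add, pt_inj']; norm_num,
      by
        rw [pos_dl2]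
        show pt (-1) 1 = pt (-1) 3 + pt 0 (-2)
        rw [pt_add, pt_inj']; norm_num⟩
  · show Match (proto 5) (proto 5) 3
    exact ⟨rfl, rfl,
      by
        show pt (-1) 1 ≠ pt (-1) (-1)
        rw [ne_eq, pt_inj']; norm_num,
      by
        rw [pos_dl3]
        show pt (-1) 1 = pt (-2) 0 + pt 1 1
        rw [pt_add, pt_inj']; norm_num,
      by
        rw [pos_dl3]
        show pt (-1) (-1) = pt (-2) 0 + pt 1 (-1)
        rw [pt_add, pt_inj']; norm_num⟩
  · show Match (proto 5) (proto 5) 4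
    exact ⟨rfl, rfl,
      by
        show pt (-1) (-1) ≠ pt 0 (-2)
        rw [ne_eq, pt_inj']; norm_num,
      by
        rw [pos_dl4]
        show pt (-1) (-1) = pt (-1) (-3) + pt 0 2
        rw [pt_add, pt_inj']; norm_num,
      by
        rw [pos_dl4]
        show pt 0 (-2) = pt (-1) (-3) + pt 1 1
        rw [pt_add, pt_inj']; norm_num⟩
  · show Match (proto 5) (proto 5) 5
    exact ⟨rfl, rfl,
      by
        show pt 0 (-2) ≠ pt 1 (-1)
        rw [ne_eq, pt_inj']; norm_num,
      by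
        rw [pos_dl5]
        show pt 0 (-2) = pt 1 (-3) + pt (-1) 1
        rw [pt_add, pt_inj']; norm_num,
      by
        rw [pos_dl5]
        show pt 1 (-1) = pt 1 (-3) + pt 0 2
        rw [pt_add, pt_inj']; norm_num⟩

theorem match_T : Match (proto 0) (proto 1) 2 ∧
    Match (proto 0) (proto 1) 4 ∧
    Match (proto 0) (proto 2) 3 ∧
    Match (proto 1) (proto 2) 2 ∧
    Match (proto 1) (proto 2) 4 ∧
    Match (proto 1) (proto 3) 3 ∧
    Match (proto 2) (proto 3) 2 ∧
    Match (proto 2) (proto 3) 4 ∧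
    Match (proto 2) (proto 5) 3 ∧
    Match (proto 3) (proto 5) 2 ∧
    Match (proto 3) (proto 5) 3 ∧
    Match (proto 3) (proto 5) 4 := by
  refine ⟨?_, ?_, ?_, ?_, ?_, ?_, ?_, ?_, ?_, ?_, ?_, ?_⟩
  · exact ⟨rfl, rfl,
      by
        show pt (1/4) (17/8) ≠ pt (-357/319) (6/5)
        rw [ne_eq, pt_inj']; norm_num,
      by
        rw [pos_dl2]
        show pt (1/4) (17/8) = pt (-1) 3 + pt (5/4) (-7/8)
        rw [pt_add, pt_inj']; norm_num,
      by
        rw [pos_dl2]
        show pt (-357/319) (6/5) = pt (-1) 3 + pt (-38/319) (-9/5)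
        rw [pt_add, pt_inj']; norm_num⟩
  · exact ⟨rfl, rfl,
      by
        show pt (-357/319) (-6/5) ≠ pt (1/4) (-17/8)
        rw [ne_eq, pt_inj']; norm_num,
      by
        rw [pos_dl4]
        show pt (-357/319) (-6/5) = pt (-1) (-3) + pt (-38/319) (9/5)
        rw [pt_add, pt_inj']; norm_num,
      by
        rw [pos_dl4]
        show pt (1/4) (-17/8) = pt (-1) (-3) + pt (5/4) (7/8)
        rw [pt_add, pt_inj']; norm_num⟩
  · exact ⟨rfl, rfl,
      by
        show pt (-357/319) (6/5) ≠ pt (-357/319) (-6/5)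
        rw [ne_eq, pt_inj']; norm_num,
      by
        rw [pos_dl3]
        show pt (-357/319) (6/5) = pt (-2) 0 + pt (281/319) (6/5)
        rw [pt_add, pt_inj']; norm_num,
      by
        rw [pos_dl3]
        show pt (-357/319) (-6/5) = pt (-2) 0 + pt (281/319) (-6/5)
        rw [pt_add, pt_inj']; norm_num⟩
  · exact ⟨rfl, rfl,
      by
        show pt (-38/319) (9/5) ≠ pt (-28/29) (9/10)
        rw [ne_eq, pt_inj']; norm_num,
      by
        rw [pos_dl2]
        show pt (-38/319) (9/5) = pt (-1) 3 + pt (281/319) (-6/5)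
        rw [pt_add, pt_inj']; norm_num,
      by
        rw [pos_dl2]
        show pt (-28/29) (9/10) = pt (-1) 3 + pt (1/29) (-21/10)
        rw [pt_add, pt_inj']; norm_num⟩
  · exact ⟨rfl, rfl,
      by
        show pt (-28/29) (-9/10) ≠ pt (-38/319) (-9/5)
        rw [ne_eq, pt_inj']; norm_num,
      by
        rw [pos_dl4]
        show pt (-28/29) (-9/10) = pt (-1) (-3) + pt (1/29) (21/10)
        rw [pt_add, pt_inj']; norm_num,
      by
        rw [pos_dl4]
        show pt (-38/319) (-9/5) = pt (-1) (-3) + pt (281/319) (6/5)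
        rw [pt_add, pt_inj']; norm_num⟩
  · exact ⟨rfl, rfl,
      by
        show pt (-28/29) (9/10) ≠ pt (-28/29) (-9/10)
        rw [ne_eq, pt_inj']; norm_num,
      by
        rw [pos_dl3]
        show pt (-28/29) (9/10) = pt (-2) 0 + pt (30/29) (9/10)
        rw [pt_add, pt_inj']; norm_num,
      by
        rw [pos_dl3]
        show pt (-28/29) (-9/10) = pt (-2) 0 + pt (30/29) (-9/10)
        rw [pt_add, pt_inj']; norm_num⟩
  · exact ⟨rfl, rfl,
      by
        show pt (1/29) (21/10) ≠ pt (-1) 1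
        rw [ne_eq, pt_inj']; norm_num,
      by
        rw [pos_dl2]
        show pt (1/29) (21/10) = pt (-1) 3 + pt (30/29) (-9/10)
        rw [pt_add, pt_inj']; norm_num,
      by
        rw [pos_dl2]
        show pt (-1) 1 = pt (-1) 3 + pt 0 (-2)
        rw [pt_add, pt_inj']; norm_num⟩
  · exact ⟨rfl, rfl,
      by
        show pt (-1) (-1) ≠ pt (1/29) (-21/10)
        rw [ne_eq, pt_inj']; norm_num,
      by
        rw [pos_dl4]
        show pt (-1) (-1) = pt (-1) (-3) + pt 0 2
        rw [pt_add, pt_inj']; norm_num,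
      by
        rw [pos_dl4]
        show pt (1/29) (-21/10) = pt (-1) (-3) + pt (30/29) (9/10)
        rw [pt_add, pt_inj']; norm_num⟩
  · exact ⟨rfl, rfl,
      by
        show pt (-1) 1 ≠ pt (-1) (-1)
        rw [ne_eq, pt_inj']; norm_num,
      by
        rw [pos_dl3]
        show pt (-1) 1 = pt (-2) 0 + pt 1 1
        rw [pt_add, pt_inj']; norm_num,
      by
        rw [pos_dl3]
        show pt (-1) (-1) = pt (-2) 0 + pt 1 (-1)
        rw [pt_add, pt_inj']; norm_num⟩
  · exact ⟨rfl, rfl,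
      by
        show pt 0 2 ≠ pt (-1) 1
        rw [ne_eq, pt_inj']; norm_num,
      by
        rw [pos_dl2]
        show pt 0 2 = pt (-1) 3 + pt 1 (-1)
        rw [pt_add, pt_inj']; norm_num,
      by
        rw [pos_dl2]
        show pt (-1) 1 = pt (-1) 3 + pt 0 (-2)
        rw [pt_add, pt_inj']; norm_num⟩
  · exact ⟨rfl, rfl,
      by
        show pt (-1) 1 ≠ pt (-1) (-1)
        rw [ne_eq, pt_inj']; norm_num,
      by
        rw [pos_dl3]
        show pt (-1) 1 = pt (-2) 0 + pt 1 1
        rw [pt_add, pt_inj']; norm_num,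
      by
        rw [pos_dl3]
        show pt (-1) (-1) = pt (-2) 0 + pt 1 (-1)
        rw [pt_add, pt_inj']; norm_num⟩
  · exact ⟨rfl, rfl,
      by
        show pt (-1) (-1) ≠ pt 0 (-2)
        rw [ne_eq, pt_inj']; norm_num,
      by
        rw [pos_dl4]
        show pt (-1) (-1) = pt (-1) (-3) + pt 0 2
        rw [pt_add, pt_inj']; norm_num,
      by
        rw [pos_dl4]
        show pt 0 (-2) = pt (-1) (-3) + pt 1 1
        rw [pt_add, pt_inj']; norm_num⟩

theorem match_Z : Match (proto 4) (proto 4) 1 ∧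
    Match (proto 4) (proto 5) 2 ∧
    Match (proto 4) (proto 5) 3 := by
  refine ⟨?_, ?_, ?_⟩
  · exact ⟨rfl, rfl,
      by
        show pt (35/32) (29/32) ≠ pt 0 2
        rw [ne_eq, pt_inj']; norm_num,
      by
        rw [pos_dl1]
        show pt (35/32) (29/32) = pt 1 3 + pt (3/32) (-67/32)
        rw [pt_add, pt_inj']; norm_num,
      by
        rw [pos_dl1]
        show pt 0 2 = pt 1 3 + pt (-1) (-1)
        rw [pt_add, pt_inj']; norm_num⟩
  · exact ⟨rfl, rfl,
      by
        show pt 0 2 ≠ pt (-1) 1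
        rw [ne_eq, pt_inj']; norm_num,
      by
        rw [pos_dl2]
        show pt 0 2 = pt (-1) 3 + pt 1 (-1)
        rw [pt_add, pt_inj']; norm_num,
      by
        rw [pos_dl2]
        show pt (-1) 1 = pt (-1) 3 + pt 0 (-2)
        rw [pt_add, pt_inj']; norm_num⟩
  · exact ⟨rfl, rfl,
      by
        show pt (-1) 1 ≠ pt (-1) (-1)
        rw [ne_eq, pt_inj']; norm_num,
      by
        rw [pos_dl3]
        show pt (-1) 1 = pt (-2) 0 + pt 1 1
        rw [pt_add, pt_inj']; norm_num,
      by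
        rw [pos_dl3]
        show pt (-1) (-1) = pt (-2) 0 + pt 1 (-1)
        rw [pt_add, pt_inj']; norm_num⟩

/-- the length of a straight side -/
private theorem plen_straight {C : Cell} {k : Fin 6} (hb : C.b k = 0) :
    C.plen k = ‖C.v (k + 1) - C.v k‖ := by
  unfold Cell.plen Cell.m
  rw [hb, add_zero, len_mid]

/-- the length of a bent side -/
private theorem plen_bent {C : Cell} {k : Fin 6} (h : (C.v (k + 1) - C.v k).re * (C.b k).re +
    (C.v (k + 1) - C.v k).im * (C.b k).im = 0) {L n : ℝ} (hL : 0 < L)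
    (h1 : ‖C.v (k + 1) - C.v k‖ = L) (h2 : 2 * ‖C.b k‖ = n) :
    C.plen k ≤ L + n ^ 2 / (6 * L) - n ^ 4 / (40 * L ^ 3) + n ^ 6 / (112 * L ^ 5) := by
  unfold Cell.plen
  have e : C.v k + C.v (k + 1) - 2 * C.m k = -2 * C.b k := by
    unfold Cell.m mid
    ring
  refine len_le ?_ hL h1 ?_
  · rw [e]
    have e1 : (-2 * C.b k).re = -2 * (C.b k).re := by simp
    have e2 : (-2 * C.b k).im = -2 * (C.b k).im := by simp
    rw [e1, e2]
    linear_combination (-2) * h
  · rw [e, norm_mul]
    simpa using h2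

private theorem plen_0_1 : (proto 0).plen 1 = 0 := by
  rw [plen_straight rfl]
  show ‖pt (1/4) (17/8) - pt (1/4) (17/8)‖ = 0
  rw [sub_self, norm_zero]

private theorem plen_0_2 : (proto 0).plen 2 ≤ (63635251/50000000) := by
  rw [plen_straight rfl]
  show ‖pt (-357/319) (6/5) - pt (1/4) (17/8)‖ ≤ (63635251/50000000)
  rw [pt_sub]
  exact pt_norm_le (by norm_num) (by norm_num)

private theorem plen_0_3 : (proto 0).plen 3 = (6/5) := by
  rw [plen_straight rfl]
  show ‖pt (-357/319) (-6/5) - pt (-357/319) (6/5)‖ = (6/5)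
  rw [pt_sub]
  exact pt_norm_eq (by norm_num) (by norm_num)

private theorem plen_0_4 : (proto 0).plen 4 ≤ (63635251/50000000) := by
  rw [plen_straight rfl]
  show ‖pt (1/4) (-17/8) - pt (-357/319) (-6/5)‖ ≤ (63635251/50000000)
  rw [pt_sub]
  exact pt_norm_le (by norm_num) (by norm_num)

private theorem plen_0_5 : (proto 0).plen 5 = 0 := by
  rw [plen_straight rfl]
  show ‖pt (1/4) (-17/8) - pt (1/4) (-17/8)‖ = 0
  rw [sub_self, norm_zero]

private theorem plen_1_1 : (proto 1).plen 1 ≤ (63635251/50000000) := by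
  rw [plen_straight rfl]
  show ‖pt (-38/319) (9/5) - pt (5/4) (7/8)‖ ≤ (63635251/50000000)
  rw [pt_sub]
  exact pt_norm_le (by norm_num) (by norm_num)

private theorem plen_1_2 : (proto 1).plen 2 ≤ (860109501/1000000000) := by
  rw [plen_straight rfl]
  show ‖pt (-28/29) (9/10) - pt (-38/319) (9/5)‖ ≤ (860109501/1000000000)
  rw [pt_sub]
  exact pt_norm_le (by norm_num) (by norm_num)

private theorem plen_1_3 : (proto 1).plen 3 = (9/10) := by
  rw [plen_straight rfl]
  show ‖pt (-28/29) (-9/10) - pt (-28/29) (9/10)‖ = (9/10)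
  rw [pt_sub]
  exact pt_norm_eq (by norm_num) (by norm_num)

private theorem plen_1_4 : (proto 1).plen 4 ≤ (860109501/1000000000) := by
  rw [plen_straight rfl]
  show ‖pt (-38/319) (-9/5) - pt (-28/29) (-9/10)‖ ≤ (860109501/1000000000)
  rw [pt_sub]
  exact pt_norm_le (by norm_num) (by norm_num)

private theorem plen_1_5 : (proto 1).plen 5 ≤ (63635251/50000000) := by
  rw [plen_straight rfl]
  show ‖pt (5/4) (-7/8) - pt (-38/319) (-9/5)‖ ≤ (63635251/50000000)
  rw [pt_sub]
  exact pt_norm_le (by norm_num) (by norm_num)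

private theorem plen_2_0 : (proto 2).plen 0 = (6/5) := by
  rw [plen_straight rfl]
  show ‖pt (281/319) (6/5) - pt (281/319) (-6/5)‖ = (6/5)
  rw [pt_sub]
  exact pt_norm_eq (by norm_num) (by norm_num)

private theorem plen_2_1 : (proto 2).plen 1 ≤ (860109501/1000000000) := by
  rw [plen_straight rfl]
  show ‖pt (1/29) (21/10) - pt (281/319) (6/5)‖ ≤ (860109501/1000000000)
  rw [pt_sub]
  exact pt_norm_le (by norm_num) (by norm_num)

private theorem plen_2_2 : (proto 2).plen 2 ≤ (210248989/200000000) := by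
  rw [plen_straight rfl]
  show ‖pt (-1) 1 - pt (1/29) (21/10)‖ ≤ (210248989/200000000)
  rw [pt_sub]
  exact pt_norm_le (by norm_num) (by norm_num)

private theorem plen_2_3 : (proto 2).plen 3 = 1 := by
  rw [plen_straight rfl]
  show ‖pt (-1) (-1) - pt (-1) 1‖ = 1
  rw [pt_sub]
  exact pt_norm_eq (by norm_num) (by norm_num)

private theorem plen_2_4 : (proto 2).plen 4 ≤ (210248989/200000000) := by
  rw [plen_straight rfl]
  show ‖pt (1/29) (-21/10) - pt (-1) (-1)‖ ≤ (210248989/200000000)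
  rw [pt_sub]
  exact pt_norm_le (by norm_num) (by norm_num)

private theorem plen_2_5 : (proto 2).plen 5 ≤ (860109501/1000000000) := by
  rw [plen_straight rfl]
  show ‖pt (281/319) (-6/5) - pt (1/29) (-21/10)‖ ≤ (860109501/1000000000)
  rw [pt_sub]
  exact pt_norm_le (by norm_num) (by norm_num)

private theorem plen_3_0 : (proto 3).plen 0 = (9/10) := by
  rw [plen_straight rfl]
  show ‖pt (30/29) (9/10) - pt (30/29) (-9/10)‖ = (9/10)
  rw [pt_sub]
  exact pt_norm_eq (by norm_num) (by norm_num)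

private theorem plen_3_1 : (proto 3).plen 1 ≤ (210248989/200000000) := by
  rw [plen_straight rfl]
  show ‖pt 0 2 - pt (30/29) (9/10)‖ ≤ (210248989/200000000)
  rw [pt_sub]
  exact pt_norm_le (by norm_num) (by norm_num)

private theorem plen_3_2 : (proto 3).plen 2 = 1 := by
  rw [plen_straight rfl]
  show ‖pt (-1) 1 - pt 0 2‖ = 1
  rw [pt_sub]
  exact pt_norm_eq (by norm_num) (by norm_num)

private theorem plen_3_3 : (proto 3).plen 3 = 1 := by
  rw [plen_straight rfl]
  show ‖pt (-1) (-1) - pt (-1) 1‖ = 1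
  rw [pt_sub]
  exact pt_norm_eq (by norm_num) (by norm_num)

private theorem plen_3_4 : (proto 3).plen 4 = 1 := by
  rw [plen_straight rfl]
  show ‖pt 0 (-2) - pt (-1) (-1)‖ = 1
  rw [pt_sub]
  exact pt_norm_eq (by norm_num) (by norm_num)

private theorem plen_3_5 : (proto 3).plen 5 ≤ (210248989/200000000) := by
  rw [plen_straight rfl]
  show ‖pt (30/29) (-9/10) - pt 0 (-2)‖ ≤ (210248989/200000000)
  rw [pt_sub]
  exact pt_norm_le (by norm_num) (by norm_num)

private theorem plen_4_0 : (proto 4).plen 0 = 0 := by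
  rw [plen_straight rfl]
  show ‖pt (35/32) (29/32) - pt (35/32) (29/32)‖ = 0
  rw [sub_self, norm_zero]

private theorem plen_4_1 : (proto 4).plen 1 = (35/32) := by
  rw [plen_straight rfl]
  show ‖pt 0 2 - pt (35/32) (29/32)‖ = (35/32)
  rw [pt_sub]
  exact pt_norm_eq (by norm_num) (by norm_num)

private theorem plen_4_2 : (proto 4).plen 2 = 1 := by
  rw [plen_straight rfl]
  show ‖pt (-1) 1 - pt 0 2‖ = 1
  rw [pt_sub]
  exact pt_norm_eq (by norm_num) (by norm_num)

private theorem plen_4_3 : (proto 4).plen 3 = 1 := by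
  rw [plen_straight rfl]
  show ‖pt (-1) (-1) - pt (-1) 1‖ = 1
  rw [pt_sub]
  exact pt_norm_eq (by norm_num) (by norm_num)

private theorem plen_4_4 : (proto 4).plen 4 = (35/32) := by
  rw [plen_straight rfl]
  show ‖pt (3/32) (-67/32) - pt (-1) (-1)‖ = (35/32)
  rw [pt_sub]
  exact pt_norm_eq (by norm_num) (by norm_num)

private theorem plen_5_0 : (proto 5).plen 0 = 1 := by
  rw [plen_straight rfl]
  show ‖pt 1 1 - pt 1 (-1)‖ = 1
  rw [pt_sub]
  exact pt_norm_eq (by norm_num) (by norm_num)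

private theorem plen_5_1 : (proto 5).plen 1 = 1 := by
  rw [plen_straight rfl]
  show ‖pt 0 2 - pt 1 1‖ = 1
  rw [pt_sub]
  exact pt_norm_eq (by norm_num) (by norm_num)

private theorem plen_5_2 : (proto 5).plen 2 = 1 := by
  rw [plen_straight rfl]
  show ‖pt (-1) 1 - pt 0 2‖ = 1
  rw [pt_sub]
  exact pt_norm_eq (by norm_num) (by norm_num)

private theorem plen_5_3 : (proto 5).plen 3 = 1 := by
  rw [plen_straight rfl]
  show ‖pt (-1) (-1) - pt (-1) 1‖ = 1
  rw [pt_sub]
  exact pt_norm_eq (by norm_num) (by norm_num)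

private theorem plen_5_4 : (proto 5).plen 4 = 1 := by
  rw [plen_straight rfl]
  show ‖pt 0 (-2) - pt (-1) (-1)‖ = 1
  rw [pt_sub]
  exact pt_norm_eq (by norm_num) (by norm_num)

private theorem plen_5_5 : (proto 5).plen 5 = 1 := by
  rw [plen_straight rfl]
  show ‖pt 1 (-1) - pt 0 (-2)‖ = 1
  rw [pt_sub]
  exact pt_norm_eq (by norm_num) (by norm_num)

private theorem plen_0_0 : (proto 0).plen 0 ≤ (587867827/250000000) := by
  have h3 : Real.sqrt 3 ^ 2 = 3 := Real.sq_sqrt (by norm_num)
  have h := plen_bent (C := proto 0) (k := 0) (L := 17/8) (n := Real.sqrt 3 * (221667/216920))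
    (by
      show (pt (1/4) (17/8) - pt (1/4) (-17/8)).re * (pt (221667/216920) 0).re +
        (pt (1/4) (17/8) - pt (1/4) (-17/8)).im * (pt (221667/216920) 0).im = 0
      rw [pt_sub]
      simp [pt])
    (by norm_num)
    (by
      show ‖pt (1/4) (17/8) - pt (1/4) (-17/8)‖ = 17/8
      rw [pt_sub]
      exact pt_norm_eq (by norm_num) (by norm_num))
    (by
      show 2 * ‖pt (221667/216920) 0‖ = _
      rw [pt_norm_eq (r := Real.sqrt 3 * (221667/216920) / 2) (by positivity) (by
        linear_combination (-((221667/216920) ^ 2 / 4 : ℝ)) * h3)]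
      ring)
  refine h.trans ?_
  have h4 : (Real.sqrt 3 * (221667/216920)) ^ 2 = 3 * (221667/216920) ^ 2 := by rw [mul_pow, h3]
  have h5 : (Real.sqrt 3 * (221667/216920)) ^ 4 = 9 * (221667/216920) ^ 4 := by
    rw [show (Real.sqrt 3 * (221667/216920)) ^ 4 = ((Real.sqrt 3 * (221667/216920)) ^ 2) ^ 2 by ring, h4]
    ring
  have h6 : (Real.sqrt 3 * (221667/216920)) ^ 6 = 27 * (221667/216920) ^ 6 := by
    rw [show (Real.sqrt 3 * (221667/216920)) ^ 6 = ((Real.sqrt 3 * (221667/216920)) ^ 2) ^ 3 by ring, h4]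
    ring
  rw [h4, h5, h6]
  norm_num

private theorem plen_1_0 : (proto 1).plen 0 ≤ (4397887/5000000) := by
  have h3 : Real.sqrt 3 ^ 2 = 3 := Real.sq_sqrt (by norm_num)
  have h := plen_bent (C := proto 1) (k := 0) (L := 7/8) (n := Real.sqrt 3 * (8013/89320))
    (by
      show (pt (5/4) (7/8) - pt (5/4) (-7/8)).re * (pt (8013/89320) 0).re +
        (pt (5/4) (7/8) - pt (5/4) (-7/8)).im * (pt (8013/89320) 0).im = 0
      rw [pt_sub]
      simp [pt])
    (by norm_num)
    (by
      show ‖pt (5/4) (7/8) - pt (5/4) (-7/8)‖ = 7/8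
      rw [pt_sub]
      exact pt_norm_eq (by norm_num) (by norm_num))
    (by
      show 2 * ‖pt (8013/89320) 0‖ = _
      rw [pt_norm_eq (r := Real.sqrt 3 * (8013/89320) / 2) (by positivity) (by
        linear_combination (-((8013/89320) ^ 2 / 4 : ℝ)) * h3)]
      ring)
  refine h.trans ?_
  have h4 : (Real.sqrt 3 * (8013/89320)) ^ 2 = 3 * (8013/89320) ^ 2 := by rw [mul_pow, h3]
  have h5 : (Real.sqrt 3 * (8013/89320)) ^ 4 = 9 * (8013/89320) ^ 4 := by
    rw [show (Real.sqrt 3 * (8013/89320)) ^ 4 = ((Real.sqrt 3 * (8013/89320)) ^ 2) ^ 2 by ring, h4]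
    ring
  have h6 : (Real.sqrt 3 * (8013/89320)) ^ 6 = 27 * (8013/89320) ^ 6 := by
    rw [show (Real.sqrt 3 * (8013/89320)) ^ 6 = ((Real.sqrt 3 * (8013/89320)) ^ 2) ^ 3 by ring, h4]
    ring
  rw [h4, h5, h6]
  norm_num

private theorem plen_4_5 : (proto 4).plen 5 ≤ (226661999/125000000) := by
  have h3 : Real.sqrt 3 ^ 2 = 3 := Real.sq_sqrt (by norm_num)
  have h3p : 0 < Real.sqrt 3 := by positivity
  have h := plen_bent (C := proto 4) (k := 5) (L := Real.sqrt 3) (n := 15/16)
    (by
      show (pt (35/32) (29/32) - pt (3/32) (-67/32)).re * (pt (15/32) (-15/32)).re +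
        (pt (35/32) (29/32) - pt (3/32) (-67/32)).im * (pt (15/32) (-15/32)).im = 0
      rw [pt_sub]
      simp only [pt]
      linear_combination (15/128 : ℝ) * h3)
    h3p
    (by
      show ‖pt (35/32) (29/32) - pt (3/32) (-67/32)‖ = Real.sqrt 3
      rw [pt_sub]
      exact pt_norm_eq h3p.le (by rw [h3]; norm_num))
    (by
      show 2 * ‖pt (15/32) (-15/32)‖ = 15/16
      rw [pt_norm_eq (r := 15/32) (by norm_num) (by norm_num)]
      norm_num)
  refine h.trans ?_
  have h4 : Real.sqrt 3 ≤ (17320509/10000000) := by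
    rw [Real.sqrt_le_left (by norm_num)]
    norm_num
  have e : Real.sqrt 3 + (15/16) ^ 2 / (6 * Real.sqrt 3) - (15/16) ^ 4 / (40 * Real.sqrt 3 ^ 3) +
      (15/16) ^ 6 / (112 * Real.sqrt 3 ^ 5) = Real.sqrt 3 * (1 + (15/16) ^ 2 / 18 -
        (15/16) ^ 4 / 360 + (15/16) ^ 6 / 3024) := by
    have e3 : Real.sqrt 3 ^ 3 = 3 * Real.sqrt 3 := by rw [pow_succ, h3]
    have e5 : Real.sqrt 3 ^ 5 = 9 * Real.sqrt 3 := by
      rw [show Real.sqrt 3 ^ 5 = (Real.sqrt 3 ^ 2) ^ 2 * Real.sqrt 3 by ring, h3]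
      ring
    have e1 : (1 : ℝ) / Real.sqrt 3 = Real.sqrt 3 / 3 := by
      rw [div_eq_div_iff h3p.ne' (by norm_num), ← sq, h3]
      norm_num
    have e6 : ∀ a b : ℝ, a / (b * Real.sqrt 3) = a / b * (Real.sqrt 3 / 3) := by
      intro a b
      rw [← e1]
      by_cases hb : b = 0
      · simp [hb]
      · field_simp
    rw [e3, e5, ← mul_assoc, ← mul_assoc, e6, e6, e6]
    ring
  rw [e]
  refine (mul_le_mul_of_nonneg_right h4 (by norm_num)).trans ?_
  norm_num

theorem plen5 (k : Fin 6) : (proto 5).plen k = 1 := by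
  fin_cases k
  · exact plen_5_0
  · exact plen_5_1
  · exact plen_5_2
  · exact plen_5_3
  · exact plen_5_4
  · exact plen_5_5

theorem plen_zero : (proto 0).plen 1 = 0 ∧ (proto 0).plen 5 = 0 ∧ (proto 4).plen 0 = 0 :=
  ⟨plen_0_1, plen_0_5, plen_4_0⟩

theorem cost_le (t : Fin 6) : (∑ k, (proto t).plen k +
    (if t = 0 ∨ t = 1 ∨ t = 4 then (proto t).plen (sp t) else 0)) / 2 ≤ tau t := by
  rw [Fin.sum_univ_six]
  fin_cases t
  · show ((proto 0).plen 0 + (proto 0).plen 1 + (proto 0).plen 2 + (proto 0).plen 3 +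
      (proto 0).plen 4 + (proto 0).plen 5 + (if (0 : Fin 6) = 0 ∨ (0 : Fin 6) = 1 ∨ (0 : Fin 6) = 4
        then (proto 0).plen (sp 0) else 0)) / 2 ≤ 4.22418
    rw [if_pos (by decide), show sp 0 = 0 from rfl]
    have b0 := plen_0_0
    have b1 := plen_0_1
    have b2 := plen_0_2
    have b3 := plen_0_3
    have b4 := plen_0_4
    have b5 := plen_0_5
    norm_num at *
    linarith
  · show ((proto 1).plen 0 + (proto 1).plen 1 + (proto 1).plen 2 + (proto 1).plen 3 +
      (proto 1).plen 4 + (proto 1).plen 5 + (if (1 : Fin 6) = 0 ∨ (1 : Fin 6) = 1 ∨ (1 : Fin 6) = 4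
        then (proto 1).plen (sp 1) else 0)) / 2 ≤ 3.4624
    rw [if_pos (by decide), show sp 1 = 0 from rfl]
    have b0 := plen_1_0
    have b1 := plen_1_1
    have b2 := plen_1_2
    have b3 := plen_1_3
    have b4 := plen_1_4
    have b5 := plen_1_5
    norm_num at *
    linarith
  · show ((proto 2).plen 0 + (proto 2).plen 1 + (proto 2).plen 2 + (proto 2).plen 3 +
      (proto 2).plen 4 + (proto 2).plen 5 + (if (2 : Fin 6) = 0 ∨ (2 : Fin 6) = 1 ∨ (2 : Fin 6) = 4
        then (proto 2).plen (sp 2) else 0)) / 2 ≤ 3.01136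
    rw [if_neg (by decide)]
    have b0 := plen_2_0
    have b1 := plen_2_1
    have b2 := plen_2_2
    have b3 := plen_2_3
    have b4 := plen_2_4
    have b5 := plen_2_5
    norm_num at *
    linarith
  · show ((proto 3).plen 0 + (proto 3).plen 1 + (proto 3).plen 2 + (proto 3).plen 3 +
      (proto 3).plen 4 + (proto 3).plen 5 + (if (3 : Fin 6) = 0 ∨ (3 : Fin 6) = 1 ∨ (3 : Fin 6) = 4
        then (proto 3).plen (sp 3) else 0)) / 2 ≤ 3.00125
    rw [if_neg (by decide)]
    have b0 := plen_3_0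
    have b1 := plen_3_1
    have b2 := plen_3_2
    have b3 := plen_3_3
    have b4 := plen_3_4
    have b5 := plen_3_5
    norm_num at *
    linarith
  · show ((proto 4).plen 0 + (proto 4).plen 1 + (proto 4).plen 2 + (proto 4).plen 3 +
      (proto 4).plen 4 + (proto 4).plen 5 + (if (4 : Fin 6) = 0 ∨ (4 : Fin 6) = 1 ∨ (4 : Fin 6) = 4
        then (proto 4).plen (sp 4) else 0)) / 2 ≤ 3.90705
    rw [if_pos (by decide), show sp 4 = 5 from rfl]
    have b0 := plen_4_0
    have b1 := plen_4_1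
    have b2 := plen_4_2
    have b3 := plen_4_3
    have b4 := plen_4_4
    have b5 := plen_4_5
    norm_num at *
    linarith
  · show ((proto 5).plen 0 + (proto 5).plen 1 + (proto 5).plen 2 + (proto 5).plen 3 +
      (proto 5).plen 4 + (proto 5).plen 5 + (if (5 : Fin 6) = 0 ∨ (5 : Fin 6) = 1 ∨ (5 : Fin 6) = 4
        then (proto 5).plen (sp 5) else 0)) / 2 ≤ 3
    rw [if_neg (by decide)]
    have b0 := plen_5_0
    have b1 := plen_5_1
    have b2 := plen_5_2
    have b3 := plen_5_3
    have b4 := plen_5_4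
    have b5 := plen_5_5
    norm_num at *
    linarith

theorem sum_plen_le (t : Fin 6) : ∑ k, (proto t).plen k ≤ 8 := by
  rw [Fin.sum_univ_six]
  fin_cases t
  · show (proto 0).plen 0 + (proto 0).plen 1 + (proto 0).plen 2 + (proto 0).plen 3 +
      (proto 0).plen 4 + (proto 0).plen 5 ≤ 8
    have b0 := plen_0_0
    have b1 := plen_0_1
    have b2 := plen_0_2
    have b3 := plen_0_3
    have b4 := plen_0_4
    have b5 := plen_0_5
    norm_num at *
    linarith
  · show (proto 1).plen 0 + (proto 1).plen 1 + (proto 1).plen 2 + (proto 1).plen 3 +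
      (proto 1).plen 4 + (proto 1).plen 5 ≤ 8
    have b0 := plen_1_0
    have b1 := plen_1_1
    have b2 := plen_1_2
    have b3 := plen_1_3
    have b4 := plen_1_4
    have b5 := plen_1_5
    norm_num at *
    linarith
  · show (proto 2).plen 0 + (proto 2).plen 1 + (proto 2).plen 2 + (proto 2).plen 3 +
      (proto 2).plen 4 + (proto 2).plen 5 ≤ 8
    have b0 := plen_2_0
    have b1 := plen_2_1
    have b2 := plen_2_2
    have b3 := plen_2_3
    have b4 := plen_2_4
    have b5 := plen_2_5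
    norm_num at *
    linarith
  · show (proto 3).plen 0 + (proto 3).plen 1 + (proto 3).plen 2 + (proto 3).plen 3 +
      (proto 3).plen 4 + (proto 3).plen 5 ≤ 8
    have b0 := plen_3_0
    have b1 := plen_3_1
    have b2 := plen_3_2
    have b3 := plen_3_3
    have b4 := plen_3_4
    have b5 := plen_3_5
    norm_num at *
    linarith
  · show (proto 4).plen 0 + (proto 4).plen 1 + (proto 4).plen 2 + (proto 4).plen 3 +
      (proto 4).plen 4 + (proto 4).plen 5 ≤ 8
    have b0 := plen_4_0
    have b1 := plen_4_1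
    have b2 := plen_4_2
    have b3 := plen_4_3
    have b4 := plen_4_4
    have b5 := plen_4_5
    norm_num at *
    linarith
  · show (proto 5).plen 0 + (proto 5).plen 1 + (proto 5).plen 2 + (proto 5).plen 3 +
      (proto 5).plen 4 + (proto 5).plen 5 ≤ 8
    have b0 := plen_5_0
    have b1 := plen_5_1
    have b2 := plen_5_2
    have b3 := plen_5_3
    have b4 := plen_5_4
    have b5 := plen_5_5
    norm_num at *
    linarith

end Pool.Agent.Helper79.HC
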